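import Pool.Agent.Lib.MP_e6fef2_lc.V.Iface
import Pool.Agent.Lib.MP_c5d73d_lc.F.IfaceW

/-!
# V_PFA: `PFA(ω₁)` in `V^B`
-/

set_option autoImplicit false

universe u

open Cardinal

open scoped symmDiff

namespace Pool.Agent.Lib.MP_e6fef2_lc.H70

open Pool.Agent.Lib.MP_100a6c_lc
open Pool.Agent.Lib.MP_c5d73d_lc.F (isOm isPow isPreo comp isDense isFilt ZFC RealsStatement)
open BName
open Pool.Agent.Lib.MP_100a6c_lc.H36 (om)

variable {B : Type u} [CompleteBooleanAlgebra B]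

theorem ext_FA_left (P r : BName B) : Ext (fun o : BName B => FA (VB B) o P r) :=
  Ext.iInf fun D => ((Ext.const _).inf (ext_leCard_right D)).himp (Ext.const _)

/-- the core -/
theorem core (hTP : TPFA B) (hE : VEnumStatement.{u}) (hPr : VPropStatement.{u}) (P r D : BName B)
    (Γ : B) (hpre : Γ ≤ isPreo (VB B) P r) (hcard : Γ ≤ (VB B).leCard P (check om1))
    (hprop : Γ ≤ isProper (VB B) P r)
    (hden : Γ ≤ ⨅ d, bmem d D ⇨ isDense (VB B) P r d)
    (hD : Γ ≤ (VB B).leCard D (check om1)) :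
    Γ ≤ ⨆ G, isFilt (VB B) P r G ⊓ ⨅ d, bmem d D ⇨ ⨆ p, bmem p G ⊓ bmem p d := by
  obtain ⟨p, hp1, hp2⟩ := hE B Γ P (hpre.trans (inf_le_left.trans inf_le_left)) hcard
  have hT := hPr B Γ P r p hp1 hp2 hpre hprop
  have hrefl : ∀ x, Γ ⊓ bmem x P ≤ (VB B).rel r x x := fun x =>
    iInf_himp_apply (hpre.trans (inf_le_left.trans inf_le_right)) x inf_le_left inf_le_right
  have htrans : ∀ x y z, Γ ⊓ (bmem x P ⊓ bmem y P ⊓ bmem z P ⊓ (VB B).rel r x y ⊓ (VB B).rel r y z)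
      ≤ (VB B).rel r x z := by
    intro x y z
    have h : Γ ≤ bmem x P ⊓ bmem y P ⊓ bmem z P ⊓ (VB B).rel r x y ⊓ (VB B).rel r y z ⇨
        (VB B).rel r x z :=
      (hpre.trans inf_le_right).trans (iInf_le_of_le x (iInf_le_of_le y (iInf_le _ z)))
    rwa [le_himp_iff] at h
  have hpr : ∀ q, Γ ≤ (VB B).rel r (p q) (p q) := fun q => (le_inf le_rfl (hp1 q)).trans (hrefl _)
  set le : W.{u} → W.{u} → B := fun q q' => (VB B).rel r (p q) (p q') ⊔ Γᶜ with hle
  have hle1 : ∀ q, le q q = ⊤ := by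
    intro q
    refine top_le_iff.1 ?_
    change ⊤ ≤ (VB B).rel r (p q) (p q) ⊔ Γᶜ
    rw [← sup_compl_eq_top (x := Γ)]
    exact sup_le_sup_right (hpr q) _
  have hleΓ : ∀ q q', Γ ⊓ le q q' ≤ (VB B).rel r (p q) (p q') := by
    intro q q'
    change Γ ⊓ ((VB B).rel r (p q) (p q') ⊔ Γᶜ) ≤ _
    rw [inf_sup_left, inf_compl_self, sup_bot_eq]
    exact inf_le_right
  have hle2 : ∀ s t v, le s t ⊓ le t v ≤ le s v := by
    intro s t v
    change _ ≤ (VB B).rel r (p s) (p v) ⊔ Γᶜ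
    have h1 : Γ ⊓ (le s t ⊓ le t v) ≤ (VB B).rel r (p s) (p v) := by
      refine le_trans (le_inf inf_le_left (le_inf (le_inf (le_inf (le_inf ?_ ?_) ?_) ?_) ?_))
        (htrans (p s) (p t) (p v))
      · exact inf_le_left.trans (hp1 s)
      · exact inf_le_left.trans (hp1 t)
      · exact inf_le_left.trans (hp1 v)
      · exact (le_inf inf_le_left (inf_le_right.trans inf_le_left)).trans (hleΓ s t)
      · exact (le_inf inf_le_left (inf_le_right.trans inf_le_right)).trans (hleΓ t v)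
    calc le s t ⊓ le t v = (Γ ⊔ Γᶜ) ⊓ (le s t ⊓ le t v) := by rw [sup_compl_eq_top, top_inf_eq]
      _ = Γ ⊓ (le s t ⊓ le t v) ⊔ Γᶜ ⊓ (le s t ⊓ le t v) := by rw [inf_sup_right]
      _ ≤ (VB B).rel r (p s) (p v) ⊔ Γᶜ := sup_le_sup h1 inf_le_left
  -- the dense sets
  set Γ' : B := Γ ⊓ ⨆ z, bmem z D with hΓ'
  have hΓ'Γ : Γ' ≤ Γ := inf_le_left
  obtain ⟨d, hd1, hd2⟩ := hE B Γ' D inf_le_right (hΓ'Γ.trans hD)
  have hden' : ∀ i : W.{u}, tdense le (fun q => (Γ' ⊓ bmem (p q) (d i)) ⊔ Γ'ᶜ) = ⊤ := by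
    intro i
    refine top_le_iff.1 (le_iInf fun t => ?_)
    have h0 : Γ' ≤ isDense (VB B) P r (d i) := iInf_himp_apply hden (d i) hΓ'Γ (hd1 i)
    have h1 : Γ' ≤ ⨆ q, ((Γ' ⊓ bmem (p q) (d i)) ⊔ Γ'ᶜ) ⊓ le q t := by
      have h2 : Γ' ≤ ⨆ z, bmem z (d i) ⊓ (VB B).rel r z (p t) :=
        iInf_himp_apply (h0.trans inf_le_right) (p t) le_rfl (hΓ'Γ.trans (hp1 t))
      refine (le_inf le_rfl h2).trans ?_
      rw [inf_iSup_eq]
      refine iSup_le fun z => ?_
      have h3 : Γ' ⊓ (bmem z (d i) ⊓ (VB B).rel r z (p t)) ≤ bmem z P :=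
        sub_apply (h0.trans inf_le_left) z inf_le_left (inf_le_right.trans inf_le_left)
      have h4 : Γ' ⊓ (bmem z (d i) ⊓ (VB B).rel r z (p t)) ≤ ⨆ q, beq z (p q) :=
        (le_inf (inf_le_left.trans hΓ'Γ) h3).trans (hp2 z)
      refine (le_inf le_rfl h4).trans ?_
      rw [inf_iSup_eq]
      refine iSup_mono fun q => le_inf (le_sup_of_le_left (le_inf ?_ ?_)) ?_
      · exact inf_le_left.trans inf_le_left
      · exact (ext_mem_left (d i)).of_le (x := z) inf_le_right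
          (inf_le_left.trans (inf_le_right.trans inf_le_left))
      · refine le_trans ?_ (le_sup_left : (VB B).rel r (p q) (p t) ≤ le q t)
        exact (ext_rel_snd r (p t)).of_le (x := z) inf_le_right
          (inf_le_left.trans (inf_le_right.trans inf_le_right))
    have h5 : Γ'ᶜ ≤ ⨆ q, ((Γ' ⊓ bmem (p q) (d i)) ⊔ Γ'ᶜ) ⊓ le q t := by
      refine le_iSup_of_le t (le_inf le_sup_right ?_)
      rw [hle1]; exact le_top
    rw [← sup_compl_eq_top (x := Γ')]
    exact sup_le h1 h5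
  obtain ⟨G, hG1, hG2, hG4⟩ := hTP le ⟨hle1, fun x y z => hle2 x y z⟩ hT
    (fun i q => (Γ' ⊓ bmem (p q) (d i)) ⊔ Γ'ᶜ) hden'
  have hW : Nonempty W.{u} := by
    rw [← Cardinal.mk_ne_zero_iff, mk_toType, Cardinal.card_ord]
    exact (aleph_pos 1).ne'
  have hG3 : ⨆ t, G t = ⊤ := by
    obtain ⟨i⟩ := hW
    refine top_le_iff.1 ?_
    rw [← hG4 i]
    exact iSup_mono fun x => inf_le_left
  -- the filter
  let φ : BName B → B := fun x => ⨆ t, G t ⊓ (VB B).rel r (p t) x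
  have hφ : Ext φ := Ext.iSup fun t => (Ext.const _).inf (ext_rel_trd r (p t))
  have hmem : ∀ z, bmem z (sepn P φ) = bmem z P ⊓ φ z := fun z => mem_sepn hφ P z
  have hself : ∀ t, Γ ⊓ G t ≤ bmem (p t) (sepn P φ) := by
    intro t
    rw [hmem]
    refine le_inf (inf_le_left.trans (hp1 t)) (le_iSup_of_le t (le_inf inf_le_right ?_))
    exact inf_le_left.trans (hpr t)
  refine le_iSup_of_le (sepn P φ) (le_inf (le_inf (le_inf (le_inf ?_ ?_) ?_) ?_) ?_)
  · rw [sepn_sub]; exact le_top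
  · -- nonempty
    have h1 : Γ ≤ ⨆ t, Γ ⊓ G t := by
      rw [← inf_iSup_eq, hG3, inf_top_eq]
    refine h1.trans (iSup_le fun t => le_iSup_of_le (p t) (hself t))
  · -- upward closed
    refine le_iInf fun x => le_iInf fun y => ?_
    rw [le_himp_iff]
    change Γ ⊓ (bmem x (sepn P φ) ⊓ bmem y P ⊓ (VB B).rel r x y) ≤ bmem y (sepn P φ)
    rw [hmem, hmem]
    refine le_inf (inf_le_right.trans (inf_le_left.trans inf_le_right)) ?_
    have h1 : Γ ⊓ (bmem x P ⊓ φ x ⊓ bmem y P ⊓ (VB B).rel r x y) ≤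
        ⨆ t, G t ⊓ (VB B).rel r (p t) x :=
      inf_le_right.trans (inf_le_left.trans (inf_le_left.trans inf_le_right))
    refine (le_inf le_rfl h1).trans ?_
    rw [inf_iSup_eq]
    refine iSup_mono fun t => le_inf (inf_le_right.trans inf_le_left) ?_
    refine le_trans (le_inf ?_ (le_inf (le_inf (le_inf (le_inf ?_ ?_) ?_) ?_) ?_))
      (htrans (p t) x y)
    · exact inf_le_left.trans inf_le_left
    · exact (inf_le_left.trans inf_le_left).trans (hp1 t)
    · exact inf_le_left.trans (inf_le_right.trans (inf_le_left.trans (inf_le_left.trans inf_le_left)))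
    · exact inf_le_left.trans (inf_le_right.trans (inf_le_left.trans inf_le_right))
    · exact inf_le_right.trans inf_le_right
    · exact inf_le_left.trans (inf_le_right.trans inf_le_right)
  · -- directed
    refine le_iInf fun x => le_iInf fun y => ?_
    rw [le_himp_iff]
    change Γ ⊓ (bmem x (sepn P φ) ⊓ bmem y (sepn P φ)) ≤
      ⨆ s, bmem s (sepn P φ) ⊓ (VB B).rel r s x ⊓ (VB B).rel r s y
    rw [hmem x, hmem y]
    set Δ : B := Γ ⊓ (bmem x P ⊓ φ x ⊓ (bmem y P ⊓ φ y)) with hΔ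
    have dΓ : Δ ≤ Γ := inf_le_left
    have dx : Δ ≤ bmem x P := inf_le_right.trans (inf_le_left.trans inf_le_left)
    have dy : Δ ≤ bmem y P := inf_le_right.trans (inf_le_right.trans inf_le_left)
    have fx : Δ ≤ ⨆ t, G t ⊓ (VB B).rel r (p t) x :=
      inf_le_right.trans (inf_le_left.trans inf_le_right)
    have fy : Δ ≤ ⨆ t, G t ⊓ (VB B).rel r (p t) y :=
      inf_le_right.trans (inf_le_right.trans inf_le_right)
    refine (le_inf le_rfl (le_inf fx fy)).trans ?_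
    rw [iSup_inf_iSup, inf_iSup_eq]
    refine iSup_le fun ⟨t, t'⟩ => ?_
    set Ξ : B := Δ ⊓ (G t ⊓ (VB B).rel r (p t) x ⊓ (G t' ⊓ (VB B).rel r (p t') y)) with hΞ
    have xD : Ξ ≤ Δ := inf_le_left
    have xt : Ξ ≤ G t := inf_le_right.trans (inf_le_left.trans inf_le_left)
    have xx : Ξ ≤ (VB B).rel r (p t) x := inf_le_right.trans (inf_le_left.trans inf_le_right)
    have xt' : Ξ ≤ G t' := inf_le_right.trans (inf_le_right.trans inf_le_left)
    have xy : Ξ ≤ (VB B).rel r (p t') y := inf_le_right.trans (inf_le_right.trans inf_le_right)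
    have h2 : Ξ ≤ ⨆ s, G s ⊓ le s t ⊓ le s t' := (le_inf xt xt').trans (hG2 t t')
    refine (le_inf le_rfl h2).trans ?_
    rw [inf_iSup_eq]
    refine iSup_le fun s => le_iSup_of_le (p s) ?_
    have yX : Ξ ⊓ (G s ⊓ le s t ⊓ le s t') ≤ Ξ := inf_le_left
    have yΓ : Ξ ⊓ (G s ⊓ le s t ⊓ le s t') ≤ Γ := yX.trans (xD.trans dΓ)
    have yG : Ξ ⊓ (G s ⊓ le s t ⊓ le s t') ≤ G s :=
      inf_le_right.trans (inf_le_left.trans inf_le_left)
    have y1 : Ξ ⊓ (G s ⊓ le s t ⊓ le s t') ≤ (VB B).rel r (p s) (p t) :=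
      (le_inf yΓ (inf_le_right.trans (inf_le_left.trans inf_le_right))).trans (hleΓ s t)
    have y2 : Ξ ⊓ (G s ⊓ le s t ⊓ le s t') ≤ (VB B).rel r (p s) (p t') :=
      (le_inf yΓ (inf_le_right.trans inf_le_right)).trans (hleΓ s t')
    refine le_inf (le_inf ?_ ?_) ?_
    · exact (le_inf yΓ yG).trans (hself s)
    · exact (le_inf yΓ (le_inf (le_inf (le_inf (le_inf (yΓ.trans (hp1 s)) (yΓ.trans (hp1 t)))
        (yX.trans (xD.trans dx))) y1) (yX.trans xx))).trans (htrans (p s) (p t) x)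
    · exact (le_inf yΓ (le_inf (le_inf (le_inf (le_inf (yΓ.trans (hp1 s)) (yΓ.trans (hp1 t')))
        (yX.trans (xD.trans dy))) y2) (yX.trans xy))).trans (htrans (p s) (p t') y)
  · -- the dense sets
    refine le_iInf fun z => ?_
    rw [le_himp_iff]
    change Γ ⊓ bmem z D ≤ ⨆ x, bmem x (sepn P φ) ⊓ bmem x z
    have hz' : Γ ⊓ bmem z D ≤ Γ' := inf_le_inf_left _ (le_iSup (fun z => bmem z D) z)
    refine (le_inf le_rfl ((le_inf hz' inf_le_right).trans (hd2 z))).trans ?_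
    rw [inf_iSup_eq]
    refine iSup_le fun l => ?_
    have h1 : Γ ⊓ bmem z D ⊓ beq z (d l) ≤ ⨆ q, G q ⊓ ((Γ' ⊓ bmem (p q) (d l)) ⊔ Γ'ᶜ) := by
      rw [hG4 l]; exact le_top
    refine (le_inf le_rfl h1).trans ?_
    rw [inf_iSup_eq]
    refine iSup_le fun q => le_iSup_of_le (p q) ?_
    set Δ : B := Γ ⊓ bmem z D ⊓ beq z (d l) ⊓
      (G q ⊓ ((Γ' ⊓ bmem (p q) (d l)) ⊔ Γ'ᶜ)) with hΔ
    have dΓ : Δ ≤ Γ := inf_le_left.trans (inf_le_left.trans inf_le_left)
    have dΓ' : Δ ≤ Γ' := inf_le_left.trans (inf_le_left.trans hz')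
    have de : Δ ≤ beq z (d l) := inf_le_left.trans inf_le_right
    have dG : Δ ≤ G q := inf_le_right.trans inf_le_left
    have d3 : Δ ≤ (Γ' ⊓ bmem (p q) (d l)) ⊔ Γ'ᶜ := inf_le_right.trans inf_le_right
    have d4 : Δ ≤ bmem (p q) (d l) := by
      have h5 : Δ ≤ ((Γ' ⊓ bmem (p q) (d l)) ⊔ Γ'ᶜ) ⊓ Γ' := le_inf d3 dΓ'
      refine h5.trans ?_
      rw [inf_sup_right, compl_inf_self, sup_bot_eq]
      exact inf_le_left.trans inf_le_right
    exact le_inf ((le_inf dΓ dG).trans (hself q)) ((ext_mem_right (p q)).of_le' de d4)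

theorem v_pfa (hRe : RealsStatement.{u}) (hO : VOm1Statement.{u}) (hE : VEnumStatement.{u})
    (hPr : VPropStatement.{u}) : VPfaStatement.{u} := by
  intro B _ hC hTP
  refine top_le_iff.1 ?_
  refine le_iInf fun w => le_iInf fun o => le_iInf fun P => le_iInf fun r => ?_
  rw [le_himp_iff, top_inf_eq]
  set Γ : B := isOm (VB B) w ⊓ (VB B).isSucc o w ⊓ isPO (VB B) P r ⊓ (VB B).leCard P o ⊓
    isProper (VB B) P r with hΓ
  have g1 : Γ ≤ isOm (VB B) w :=
    inf_le_left.trans (inf_le_left.trans (inf_le_left.trans inf_le_left))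
  have g2 : Γ ≤ (VB B).isSucc o w :=
    inf_le_left.trans (inf_le_left.trans (inf_le_left.trans inf_le_right))
  have g3 : Γ ≤ isPO (VB B) P r := inf_le_left.trans (inf_le_left.trans inf_le_right)
  have g4 : Γ ≤ (VB B).leCard P o := inf_le_left.trans inf_le_right
  have g5 : Γ ≤ isProper (VB B) P r := inf_le_right
  obtain ⟨_, _, _, _, _, hOm, _⟩ := hRe B
  rw [hOm] at g1
  have g6 : Γ ≤ (VB B).isSucc o (check om) := (ext_isSucc_right o).of_le g1 g2
  have g7 : Γ ≤ beq o (check om1) := g6.trans ((hO B hC).2.1 o)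
  have g8 : Γ ≤ (VB B).leCard P (check om1) := (ext_leCard_right P).of_le g7 g4
  refine (ext_FA_left P r).of_le' g7 ?_
  refine le_iInf fun D => ?_
  rw [le_himp_iff]
  exact core hTP hE hPr P r D _ (inf_le_left.trans (g3.trans inf_le_left)) (inf_le_left.trans g8)
    (inf_le_left.trans g5) (inf_le_right.trans inf_le_left) (inf_le_right.trans inf_le_right)

end Pool.Agent.Lib.MP_e6fef2_lc.H70
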